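import Pool.Agent.K3h43.DSL.Stm

/-!
# DSL brick S: signed permutations and the functionals `cl`; vanishing on `V`
-/

set_option autoImplicit false

namespace Pool.Agent.K3h12.DSL

open Pool.Agent.K3h43.DSL MvPolynomial

lemma cl_apply (l : Fin 3 → ℕ) (Q : R) : cl l Q = ∑ π : Equiv.Perm (Fin 3),
    coeff (Finsupp.equivFunOnFinite.symm fun i => 2 * l (π i)) Q := by
  unfold cl
  rw [LinearMap.sum_apply]
  rfl

lemma sg_monomial (σ : Equiv.Perm (Fin 3)) (ε : Fin 3 → ℚ) (m : Fin 3 →₀ ℕ) (c : ℚ) :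
    sg σ ε (monomial m c) = monomial (m.mapDomain σ) (c * ∏ i, ε i ^ m i) := by
  unfold sg
  rw [aeval_monomial, monomial_eq (s := m.mapDomain σ), Finsupp.prod_mapDomain_index_inj σ.injective,
    Finsupp.prod_fintype _ _ (fun i => pow_zero _), Finsupp.prod_fintype _ _ (fun i => pow_zero _),
    map_mul, map_prod, mul_assoc, ← Finset.prod_mul_distrib]
  rw [algebraMap_eq]
  congr 1
  refine Finset.prod_congr rfl fun i _ => ?_
  rw [mul_pow, map_pow]

theorem t_ClSg : ClSg := by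
  intro l σ ε hε Q
  induction Q using MvPolynomial.induction_on' with
  | monomial m c =>
    rw [sg_monomial, cl_apply, cl_apply]
    refine Fintype.sum_equiv (Equiv.mulRight σ) _ _ fun π => ?_
    rw [coeff_monomial, coeff_monomial]
    have h : (m.mapDomain σ = Finsupp.equivFunOnFinite.symm fun i => 2 * l (π i)) ↔
        (m = Finsupp.equivFunOnFinite.symm fun i => 2 * l ((Equiv.mulRight σ π) i)) := by
      constructor
      · intro h
        ext i
        have h1 := DFunLike.congr_fun h (σ i)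
        rw [Finsupp.mapDomain_apply σ.injective] at h1
        exact h1
      · intro h
        ext j
        obtain ⟨i, rfl⟩ := σ.surjective j
        rw [Finsupp.mapDomain_apply σ.injective, h]
        rfl
    by_cases h0 : m = Finsupp.equivFunOnFinite.symm fun i => 2 * l ((Equiv.mulRight σ π) i)
    · rw [if_pos (h.2 h0), if_pos h0]
      have h2 : ∏ i, ε i ^ m i = 1 := by
        refine Finset.prod_eq_one fun i _ => ?_
        rw [h0]
        change ε i ^ (2 * l ((Equiv.mulRight σ π) i)) = 1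
        rw [pow_mul, hε, one_pow]
      rw [h2, mul_one]
    · rw [if_neg (fun h1 => h0 (h.1 h1)), if_neg h0]
  | add p q hp hq => rw [map_add, map_add, map_add, hp, hq]

lemma cl_zero_of (l : Fin 3 → ℕ) (k g₁ g₂ : R →ₐ[ℚ] R) (σ₁ σ₂ : Equiv.Perm (Fin 3))
    (h₁ : k.comp g₁ = (sg σ₁ 1).comp k) (h₂ : k.comp g₂ = (sg σ₂ 1).comp k) (Q : R)
    (hQ : Q + g₁ Q + g₂ Q = 0) : cl l (k Q) = 0 := by
  have e1 : k (g₁ Q) = sg σ₁ 1 (k Q) := DFunLike.congr_fun h₁ Q
  have e2 : k (g₂ Q) = sg σ₂ 1 (k Q) := DFunLike.congr_fun h₂ Q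
  have h := congrArg (fun x => cl l (k x)) hQ
  simp only [map_add, map_zero] at h
  rw [e1, e2, t_ClSg l σ₁ 1 (fun _ => one_pow 2), t_ClSg l σ₂ 1 (fun _ => one_pow 2)] at h
  linarith

lemma ext3 {f g : R →ₐ[ℚ] R} (h0 : f (X 0) = g (X 0)) (h1 : f (X 1) = g (X 1))
    (h2 : f (X 2) = g (X 2)) : f = g := by
  apply algHom_ext
  intro i
  fin_cases i
  · exact h0
  · exact h1
  · exact h2

lemma sb_X0 (a b c : R) : sb a b c (X 0) = a := by
  unfold sb
  rw [aeval_X]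
  rfl

lemma sb_X1 (a b c : R) : sb a b c (X 1) = b := by
  unfold sb
  rw [aeval_X]
  rfl

lemma sb_X2 (a b c : R) : sb a b c (X 2) = c := by
  unfold sb
  rw [aeval_X]
  rfl

lemma sg_X (σ : Equiv.Perm (Fin 3)) {i j : Fin 3} (h : σ i = j) : sg σ 1 (X i) = X j := by
  unfold sg
  rw [aeval_X, h, Pi.one_apply, C_1, one_mul]

lemma fC (f : R →ₐ[ℚ] R) (r : ℚ) : f (C r) = C r := f.commutes r

lemma kt_X0 : kt (X 0) = C (1 / 2) * (X 0 + X 2) := sb_X0 _ _ _

lemma kt_X1 : kt (X 1) = C (1 / 2) * (X 1 - X 0) := sb_X1 _ _ _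

lemma kt_X2 : kt (X 2) = C (1 / 2) * (X 0 - X 2) := sb_X2 _ _ _

lemma ku_X0 : ku (X 0) = C (1 / 2) * (X 0 + X 1 - X 2) := sb_X0 _ _ _

lemma ku_X1 : ku (X 1) = C (1 / 2) * (X 1 + X 2 - X 0) := sb_X1 _ _ _

lemma ku_X2 : ku (X 2) = C (1 / 2) * (X 0 + X 2 - X 1) := sb_X2 _ _ _

lemma k1 : kt.comp (sb (X 0 + X 1) (-X 1) (X 1 + X 2)) = (sg (Equiv.swap 0 1) 1).comp kt := by
  have s0 := sg_X (Equiv.swap 0 1) (i := 0) (j := 1) (by decide)
  have s1 := sg_X (Equiv.swap 0 1) (i := 1) (j := 0) (by decide)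
  have s2 := sg_X (Equiv.swap 0 1) (i := 2) (j := 2) (by decide)
  apply ext3
  · rw [AlgHom.comp_apply, AlgHom.comp_apply, sb_X0, map_add, kt_X0, kt_X1, map_mul, map_add, fC,
      s0, s2]
    ring
  · rw [AlgHom.comp_apply, AlgHom.comp_apply, sb_X1, map_neg, kt_X1, map_mul, map_sub, fC,
      s0, s1]
    ring
  · rw [AlgHom.comp_apply, AlgHom.comp_apply, sb_X2, map_add, kt_X1, kt_X2, map_mul, map_sub, fC,
      s0, s2]
    ring

lemma k2 : kt.comp (sb (X 0 + X 1) (X 2) (-(X 1 + X 2))) = (sg (finRotate 3)⁻¹ 1).comp kt := by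
  have s0 := sg_X (finRotate 3)⁻¹ (i := 0) (j := 2) (by decide)
  have s1 := sg_X (finRotate 3)⁻¹ (i := 1) (j := 0) (by decide)
  have s2 := sg_X (finRotate 3)⁻¹ (i := 2) (j := 1) (by decide)
  apply ext3
  · rw [AlgHom.comp_apply, AlgHom.comp_apply, sb_X0, map_add, kt_X0, kt_X1, map_mul, map_add, fC,
      s0, s2]
    ring
  · rw [AlgHom.comp_apply, AlgHom.comp_apply, sb_X1, kt_X1, kt_X2, map_mul, map_sub, fC,
      s0, s1]
  · rw [AlgHom.comp_apply, AlgHom.comp_apply, sb_X2, map_neg, map_add, kt_X1, kt_X2, map_mul,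
      map_sub, fC, s0, s2]
    ring

lemma k3 : ku.comp (sb (X 1) (X 0) (X 2)) = (sg (Equiv.swap 0 2) 1).comp ku := by
  have s0 := sg_X (Equiv.swap 0 2) (i := 0) (j := 2) (by decide)
  have s1 := sg_X (Equiv.swap 0 2) (i := 1) (j := 1) (by decide)
  have s2 := sg_X (Equiv.swap 0 2) (i := 2) (j := 0) (by decide)
  apply ext3
  · rw [AlgHom.comp_apply, AlgHom.comp_apply, sb_X0, ku_X0, ku_X1, map_mul, map_sub, map_add, fC,
      s0, s1, s2]
    ring
  · rw [AlgHom.comp_apply, AlgHom.comp_apply, sb_X1, ku_X0, ku_X1, map_mul, map_sub, map_add, fC,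
      s0, s1, s2]
    ring
  · rw [AlgHom.comp_apply, AlgHom.comp_apply, sb_X2, ku_X2, map_mul, map_sub, map_add, fC,
      s0, s1, s2]
    ring

lemma k4 : ku.comp (sb (X 1) (X 2) (X 0)) = (sg (finRotate 3) 1).comp ku := by
  have s0 := sg_X (finRotate 3) (i := 0) (j := 1) (by decide)
  have s1 := sg_X (finRotate 3) (i := 1) (j := 2) (by decide)
  have s2 := sg_X (finRotate 3) (i := 2) (j := 0) (by decide)
  apply ext3
  · rw [AlgHom.comp_apply, AlgHom.comp_apply, sb_X0, ku_X0, ku_X1, map_mul, map_sub, map_add, fC,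
      s0, s1, s2]
  · rw [AlgHom.comp_apply, AlgHom.comp_apply, sb_X1, ku_X1, ku_X2, map_mul, map_sub, map_add, fC,
      s0, s1, s2]
    ring
  · rw [AlgHom.comp_apply, AlgHom.comp_apply, sb_X2, ku_X0, ku_X2, map_mul, map_sub, map_add, fC,
      s0, s1, s2]
    ring

theorem t_VKer : VKer := by
  rintro d l Q ⟨-, -, -, h4, h5⟩
  exact ⟨cl_zero_of l kt _ _ _ _ k1 k2 Q h4, cl_zero_of l ku _ _ _ _ k3 k4 Q h5⟩

end Pool.Agent.K3h12.DSL
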